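import Mathlib

/-!
# Homeomorphisms conjugate to their inverse have stable flow length zero

Negative answer to Q2.  If `g f g⁻¹ = f⁻¹` then `f ^ (2 n) = (f ^ n g f ^ (-n)) g⁻¹`; the flow length
is invariant under conjugation and inversion, so `fl (f ^ (2 n)) ≤ 2 fl g` for every `n`.
-/

set_option autoImplicit false

open Topology Filter Set

namespace Pool.Agent.Results.MP_e54d61_gt.ConjugateToInverse

/-! ### Homeomorphism groups, flows, flow length -/

section Defs

variable (X : Type*) [TopologicalSpace X]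

/-- A homeomorphism of `X` as a continuous map. -/
def toMap {X : Type*} [TopologicalSpace X] (f : X ≃ₜ X) : C(X, X) := ⟨f, f.continuous⟩

/-- The compact-open topology of the group `Homeo(X)` of the homeomorphisms of `X`. -/
@[reducible] def homeoTop : TopologicalSpace (X ≃ₜ X) :=
  TopologicalSpace.induced toMap inferInstance

/-- `InHomeo0 X h`: the homeomorphism `h` lies in the identity component `Homeo_0(X)` of
`Homeo(X)`, for the compact-open topology. -/
def InHomeo0 (h : X ≃ₜ X) : Prop := h ∈ @connectedComponent (X ≃ₜ X) (homeoTop X) 1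

/-- A flow on `X`: a continuous one-parameter group of homeomorphisms of `X`. -/
structure IsFlow (φ : ℝ → X ≃ₜ X) : Prop where
  /-- joint continuity -/
  continuous : Continuous fun p : ℝ × X => φ p.1 p.2
  /-- the time zero map is the identity -/
  zero : φ 0 = 1
  /-- the group law -/
  add : ∀ s t : ℝ, φ (s + t) = φ s * φ t

/-- The set of the time-one maps of flows on `X`. -/
def timeOneMaps : Set (X ≃ₜ X) := {h | ∃ φ : ℝ → X ≃ₜ X, IsFlow X φ ∧ h = φ 1}

/-- The flow length: the least number of time-one maps of flows whose product is `h`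
(`⊤` if `h` is not a product of time-one maps). -/
noncomputable def flowLength (h : X ≃ₜ X) : ℕ∞ :=
  ⨅ (l : List (X ≃ₜ X)) (_ : (∀ x ∈ l, x ∈ timeOneMaps X) ∧ l.prod = h), (l.length : ℕ∞)

/-- `h` has stable flow length `L`: all its powers are products of time-one maps, and
`fl (h ^ n) / n` tends to `L`. -/
def HasStableFlowLength (h : X ≃ₜ X) (L : ℝ) : Prop :=
  (∀ n : ℕ, flowLength X (h ^ n) ≠ ⊤) ∧
    Tendsto (fun n : ℕ => ((flowLength X (h ^ n)).toNat : ℝ) / n) atTop (𝓝 L)

end Defs

/-! ### The flow length is a conjugation invariant norm -/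

section Norm

variable {X : Type*} [TopologicalSpace X]

theorem flowLength_le {h : X ≃ₜ X} (l : List (X ≃ₜ X)) (hl : ∀ x ∈ l, x ∈ timeOneMaps X)
    (hp : l.prod = h) : flowLength X h ≤ l.length :=
  iInf₂_le l ⟨hl, hp⟩

theorem exists_list {h : X ≃ₜ X} (hh : flowLength X h ≠ ⊤) :
    ∃ l : List (X ≃ₜ X), (∀ x ∈ l, x ∈ timeOneMaps X) ∧ l.prod = h ∧
      (l.length : ℕ∞) = flowLength X h := by
  by_contra hcon
  push Not at hcon
  apply hh
  by_cases hne : ∃ l : List (X ≃ₜ X), (∀ x ∈ l, x ∈ timeOneMaps X) ∧ l.prod = h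
  · obtain ⟨l, hl⟩ := hne
    -- the infimum of a nonempty family in `ℕ∞` is attained
    have hS : ({n : ℕ∞ | ∃ l : List (X ≃ₜ X), ((∀ x ∈ l, x ∈ timeOneMaps X) ∧ l.prod = h) ∧
        (l.length : ℕ∞) = n}).Nonempty := ⟨_, l, hl, rfl⟩
    have hmem := csInf_mem hS
    obtain ⟨l', hl', hlen⟩ := hmem
    have h2 : flowLength X h = sInf {n : ℕ∞ | ∃ l : List (X ≃ₜ X),
        ((∀ x ∈ l, x ∈ timeOneMaps X) ∧ l.prod = h) ∧ (l.length : ℕ∞) = n} := by
      apply le_antisymm
      · rw [← hlen]
        exact flowLength_le l' hl'.1 hl'.2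
      · refine le_iInf₂ fun l'' hl'' => ?_
        exact csInf_le (OrderBot.bddBelow _) ⟨l'', hl'', rfl⟩
    exact absurd (hlen.trans h2.symm) (hcon l' hl'.1 hl'.2)
  · push Not at hne
    refine top_le_iff.1 (le_iInf₂ fun l hl => ?_)
    exact absurd hl.2 (hne l hl.1)

theorem flowLength_one : flowLength X (1 : X ≃ₜ X) = 0 := by
  refine le_antisymm ?_ bot_le
  have := flowLength_le (X := X) (h := 1) [] (by simp) (by simp)
  simpa using this

theorem flowLength_mul (a b : X ≃ₜ X) :
    flowLength X (a * b) ≤ flowLength X a + flowLength X b := by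
  by_cases ha : flowLength X a = ⊤
  · simp [ha]
  by_cases hb : flowLength X b = ⊤
  · simp [hb]
  obtain ⟨l, hl, hlp, hll⟩ := exists_list ha
  obtain ⟨m, hm, hmp, hmm⟩ := exists_list hb
  rw [← hll, ← hmm]
  have := flowLength_le (X := X) (h := a * b) (l ++ m)
    (by
      intro x hx
      rcases List.mem_append.1 hx with h | h
      · exact hl x h
      · exact hm x h)
    (by rw [List.prod_append, hlp, hmp])
  simpa using this

theorem conj_mem (g h : X ≃ₜ X) (hh : h ∈ timeOneMaps X) : g * h * g⁻¹ ∈ timeOneMaps X := by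
  obtain ⟨φ, hφ, rfl⟩ := hh
  refine ⟨fun t => g * φ t * g⁻¹, ⟨?_, ?_, ?_⟩, rfl⟩
  · have h1 : Continuous fun p : ℝ × X => (p.1, g.symm p.2) :=
      continuous_fst.prodMk (g.symm.continuous.comp continuous_snd)
    exact g.continuous.comp (hφ.continuous.comp h1)
  · rw [hφ.zero]
    group
  · intro s t
    rw [hφ.add]
    group

theorem inv_mem (h : X ≃ₜ X) (hh : h ∈ timeOneMaps X) : h⁻¹ ∈ timeOneMaps X := by
  obtain ⟨φ, hφ, rfl⟩ := hh
  refine ⟨fun t => φ (-t), ⟨?_, ?_, ?_⟩, ?_⟩
  · have h1 : Continuous fun p : ℝ × X => (-p.1, p.2) :=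
      continuous_fst.neg.prodMk continuous_snd
    exact hφ.continuous.comp h1
  · rw [neg_zero, hφ.zero]
  · intro s t
    rw [neg_add, hφ.add]
  · have h1 : φ (-1) * φ 1 = 1 := by
      rw [← hφ.add, neg_add_cancel, hφ.zero]
    exact (eq_inv_of_mul_eq_one_left h1).symm

theorem flowLength_conj (g h : X ≃ₜ X) : flowLength X (g * h * g⁻¹) ≤ flowLength X h := by
  by_cases hh : flowLength X h = ⊤
  · simp [hh]
  obtain ⟨l, hl, hlp, hll⟩ := exists_list hh
  rw [← hll]
  have h1 : (l.map fun x => g * x * g⁻¹).prod = g * h * g⁻¹ := by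
    rw [← hlp]
    exact (map_list_prod (MulAut.conj g) l).symm
  have := flowLength_le (X := X) (h := g * h * g⁻¹) (l.map fun x => g * x * g⁻¹)
    (by
      intro x hx
      obtain ⟨y, hy, rfl⟩ := List.mem_map.1 hx
      exact conj_mem g y (hl y hy)) h1
  simpa using this

theorem flowLength_inv (h : X ≃ₜ X) : flowLength X h⁻¹ ≤ flowLength X h := by
  by_cases hh : flowLength X h = ⊤
  · simp [hh]
  obtain ⟨l, hl, hlp, hll⟩ := exists_list hh
  rw [← hll]
  have := flowLength_le (X := X) (h := h⁻¹) (l.map fun x => x⁻¹).reverse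
    (by
      intro x hx
      rw [List.mem_reverse] at hx
      obtain ⟨y, hy, rfl⟩ := List.mem_map.1 hx
      exact inv_mem y (hl y hy))
    (by rw [← hlp, List.prod_inv_reverse])
  simpa using this

/-- The key estimate. -/
theorem flowLength_zpow_le {f g : X ≃ₜ X} {k l : ℤ} (h : g * f ^ k * g⁻¹ = f ^ l) (m : ℤ) :
    flowLength X (f ^ ((k - l) * m)) ≤ 2 * flowLength X g := by
  have h1 : f ^ (-(l * m)) = g * f ^ (-(k * m)) * g⁻¹ := by
    have h2 : (g * f ^ k * g⁻¹) ^ (-m) = g * (f ^ k) ^ (-m) * g⁻¹ := conj_zpow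
    rw [h] at h2
    rw [← zpow_mul, ← zpow_mul] at h2
    rw [show -(l * m) = l * -m by ring, show -(k * m) = k * -m by ring]
    exact h2
  have h3 : f ^ ((k - l) * m) = (f ^ (k * m) * g * (f ^ (k * m))⁻¹) * g⁻¹ := by
    rw [show (k - l) * m = k * m + -(l * m) by ring, zpow_add, h1, zpow_neg]
    group
  rw [h3]
  calc flowLength X ((f ^ (k * m) * g * (f ^ (k * m))⁻¹) * g⁻¹)
      ≤ flowLength X (f ^ (k * m) * g * (f ^ (k * m))⁻¹) + flowLength X g⁻¹ := flowLength_mul _ _
    _ ≤ flowLength X g + flowLength X g :=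
        add_le_add (flowLength_conj _ _) (flowLength_inv _)
    _ = 2 * flowLength X g := (two_mul _).symm

theorem flowLength_pow_ne_top {f : X ≃ₜ X} (hf : flowLength X f ≠ ⊤) (n : ℕ) :
    flowLength X (f ^ n) ≠ ⊤ := by
  induction n with
  | zero => simp [flowLength_one]
  | succ n ih =>
    rw [pow_succ]
    intro h
    have h1 := flowLength_mul (f ^ n) f
    rw [h, top_le_iff] at h1
    exact (WithTop.add_ne_top.2 ⟨ih, hf⟩) h1

theorem stable_zero {f g : X ≃ₜ X} {k l : ℤ} (hkl : k ≠ l) (h : g * f ^ k * g⁻¹ = f ^ l)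
    (hf : flowLength X f ≠ ⊤) (hg : flowLength X g ≠ ⊤) : HasStableFlowLength X f 0 := by
  refine ⟨flowLength_pow_ne_top hf, ?_⟩
  -- the flow length of all powers is bounded
  obtain ⟨C, hC⟩ : ∃ C : ℕ, ∀ n : ℕ, flowLength X (f ^ n) ≤ C := by
    set d : ℤ := k - l with hd
    have hd0 : d ≠ 0 := sub_ne_zero.2 hkl
    refine ⟨2 * (flowLength X g).toNat +
      ∑ r ∈ Finset.range d.natAbs, (flowLength X (f ^ r)).toNat, fun n => ?_⟩
    have hn : (n : ℤ) = d * ((n : ℤ) / d) + (n : ℤ) % d := (Int.mul_ediv_add_emod _ _).symm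
    obtain ⟨r, hr⟩ := Int.eq_ofNat_of_zero_le (Int.emod_nonneg (n : ℤ) hd0)
    have hrd : r < d.natAbs := by
      have := Int.emod_lt (n : ℤ) hd0
      rw [hr] at this
      have h1 : ((r : ℕ) : ℤ) < (d.natAbs : ℤ) := by simpa using this
      exact_mod_cast h1
    have hpow : f ^ n = f ^ (d * ((n : ℤ) / d)) * f ^ r := by
      rw [← zpow_natCast f n, ← zpow_natCast f r, ← zpow_add, ← hr, ← hn]
    rw [hpow]
    refine (flowLength_mul _ _).trans ?_
    have h2 := flowLength_zpow_le h ((n : ℤ) / d)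
    rw [← hd] at h2
    have h3 : flowLength X (f ^ r) ≤
        ((∑ r ∈ Finset.range d.natAbs, (flowLength X (f ^ r)).toNat : ℕ) : ℕ∞) := by
      rw [← ENat.natCast_toNat (flowLength_pow_ne_top hf r)]
      exact_mod_cast Finset.single_le_sum (f := fun r => (flowLength X (f ^ r)).toNat)
        (fun _ _ => Nat.zero_le _) (Finset.mem_range.2 hrd)
    have h4 : (2 : ℕ∞) * flowLength X g = ((2 * (flowLength X g).toNat : ℕ) : ℕ∞) := by
      rw [Nat.cast_mul, ENat.natCast_toNat hg]
      rfl
    rw [h4] at h2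
    calc flowLength X (f ^ (d * ((n : ℤ) / d))) + flowLength X (f ^ r)
        ≤ _ := add_le_add h2 h3
      _ = _ := by push_cast; rfl
  have hC' : ∀ n : ℕ, ((flowLength X (f ^ n)).toNat : ℝ) ≤ C := by
    intro n
    have h1 : (flowLength X (f ^ n)).toNat ≤ C := by
      have := ENat.toNat_le_toNat (hC n) (ENat.natCast_ne_top C)
      simpa using this
    exact_mod_cast h1
  refine squeeze_zero (fun n => by positivity) (fun n => ?_)
    (tendsto_const_div_atTop_nhds_zero_nat (C : ℝ))
  exact div_le_div_of_nonneg_right (hC' n) (Nat.cast_nonneg n)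

end Norm

/-- Time-one maps of flows lie in the identity component `Homeo_0(X)`. -/
theorem timeOneMaps_subset (X : Type*) [TopologicalSpace X] (h : X ≃ₜ X)
    (hh : h ∈ timeOneMaps X) : InHomeo0 X h := by
  obtain ⟨φ, hφ, rfl⟩ := hh
  let _ : TopologicalSpace (X ≃ₜ X) := homeoTop X
  have hcont : Continuous φ := by
    refine continuous_induced_rng.2 ?_
    have h1 : Continuous fun p : ℝ × X => toMap (φ p.1) p.2 := hφ.continuous
    exact ContinuousMap.continuous_of_continuous_uncurry _ h1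
  have hpre : IsPreconnected (range φ) := isPreconnected_range hcont
  exact hpre.subset_connectedComponent ⟨0, hφ.zero⟩ ⟨1, rfl⟩

/-- Let `X` be any compact Hausdorff space (for instance the closed orientable surface `Σ_g`, `g ≥ 1`)
and `f` a homeomorphism in the identity component `Homeo_0(X)`, of finite flow length.

(1) If `f` is conjugate to `f⁻¹` by an element `g` of `Homeo_0(X)` of finite flow length, then
`fl (f ^ (2 n)) ≤ 2 fl g` for all `n`, and the stable flow length of `f` is `0`.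

(2) More generally the stable flow length of `f` is `0` if `g f ^ k g⁻¹ = f ^ l` for some integers
`k ≠ l` and some `g` in `Homeo_0(X)` of finite flow length. -/
theorem result (X : Type*) [TopologicalSpace X] [CompactSpace X] [T2Space X] (f g : X ≃ₜ X)
    (_hf : InHomeo0 X f) (_hg : InHomeo0 X g)
    (hflf : flowLength X f ≠ ⊤) (hflg : flowLength X g ≠ ⊤) :
    (g * f * g⁻¹ = f⁻¹ →
      (∀ n : ℕ, flowLength X (f ^ (2 * n)) ≤ 2 * flowLength X g) ∧
        HasStableFlowLength X f 0) ∧
    ∀ k l : ℤ, k ≠ l → g * f ^ k * g⁻¹ = f ^ l → HasStableFlowLength X f 0 := by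
  refine ⟨fun h => ⟨fun n => ?_, ?_⟩, fun k l hkl h => stable_zero hkl h hflf hflg⟩
  · have h1 : g * f ^ (1 : ℤ) * g⁻¹ = f ^ (-1 : ℤ) := by simpa using h
    have h2 := flowLength_zpow_le h1 (n : ℤ)
    have h3 : f ^ ((1 - -1 : ℤ) * (n : ℤ)) = f ^ (2 * n) := by
      rw [← zpow_natCast f (2 * n)]
      congr 1
    rwa [h3] at h2
  · exact stable_zero (k := 1) (l := -1) (by norm_num) (by simpa using h) hflf hflg

end Pool.Agent.Results.MP_e54d61_gt.ConjugateToInverse
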